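import Pool.Agent.R512.P.Real3

/-!
# Elliott's conjecture: all the sign patterns of three different real multiplicative functions
-/

set_option autoImplicit false

namespace Pool.Agent.Results.MP_0c9a68_nt.SignPatternsThreeFunctions

open Finset Filter Topology

/-- multiplicative functions with values `±1` on the positive integers -/
def IsSignMult (g : ℕ → ℤ) : Prop :=
  (∀ n : ℕ, 1 ≤ n → g n = 1 ∨ g n = -1) ∧
    ∀ m n : ℕ, 1 ≤ m → 1 ≤ n → Nat.Coprime m n → g (m * n) = g m * g n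

/-- `g` has infinite pretentious distance, over all the primes, from every real Dirichlet character `χ`,
that is `∑ (1 - g p χ p) / p = ∞` -/
def NoRealCharacter (g : ℕ → ℤ) : Prop := ∀ (q : ℕ) (χ : DirichletCharacter ℂ q), 1 ≤ q → χ ^ 2 = 1 →
  ¬ Summable (fun p : Nat.Primes => (1 - (g p : ℝ) * (χ ((p : ℕ) : ZMod q)).re) / ((p : ℕ) : ℝ))

open Classical in
/-- logarithmic density zero -/
def LogDensityZero (E : Set ℕ) : Prop := Tendsto
  (fun X : ℕ => (∑ N ∈ Icc 1 X, if N ∈ E then (1 : ℝ) / N else 0) / Real.log X) atTop (𝓝 0)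

/-- There is `c > 0` with the following property. Let `g 0, g 1, g 2` be multiplicative functions with
values `±1`, such that `g 0` and `g 1` pretend to be no real character, let `q ≥ 1` and let `h 0, h 1, h 2`
be distinct. At all scales `N` outside a set of logarithmic density zero where the mean of `g 2 (q n + h 2)`
is at most `c` in absolute value, each of the eight sign patterns is taken by
`(g 0 (q n + h 0), g 1 (q n + h 1), g 2 (q n + h 2))` for at least `c N` of the `n ≤ N`; the condition on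
the mean can be dropped if `g 2` pretends to be no real character. If this is so, or if the mean is at most
`c` at all large scales, then each pattern has lower logarithmic density at least `c`. -/
theorem result : ∃ c : ℝ, 0 < c ∧ ∀ (q : ℕ) (h : Fin 3 → ℕ), 1 ≤ q → Function.Injective h →
    ∀ g : Fin 3 → ℕ → ℤ, (∀ i, IsSignMult (g i)) → NoRealCharacter (g 0) → NoRealCharacter (g 1) →
    (∃ E : Set ℕ, LogDensityZero E ∧ ∀ N : ℕ, N ∉ E →
      (NoRealCharacter (g 2) ∨ |∑ n ∈ Icc 1 N, (g 2 (q * n + h 2) : ℝ)| ≤ c * N) →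
      ∀ s : Fin 3 → ℤ, (∀ i, s i = 1 ∨ s i = -1) →
      c * N ≤ ((Icc 1 N).filter (fun n => ∀ i, g i (q * n + h i) = s i)).card) ∧
    ((NoRealCharacter (g 2) ∨ ∀ᶠ N : ℕ in atTop, |∑ n ∈ Icc 1 N, (g 2 (q * n + h 2) : ℝ)| ≤ c * N) →
      ∀ s : Fin 3 → ℤ, (∀ i, s i = 1 ∨ s i = -1) → ∀ᶠ X : ℕ in atTop,
      c * Real.log X ≤ ∑ n ∈ (Icc 1 X).filter (fun n => ∀ i, g i (q * n + h i) = s i), (1 : ℝ) / n) := by
  classical
  obtain ⟨c, hc0, hc1, H⟩ := Pool.Agent.R512.P.real3
  refine ⟨c / 2, by positivity, fun q h hq hh g hg h0 h1 => ?_⟩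
  have hms : ∀ i, Pool.Agent.R512.P.MS (g i) := fun i => ⟨(hg i).1, (hg i).2⟩
  obtain ⟨E, hE, hE2⟩ := H q h hq hh g hms h0 h1
  have hmono : ∀ N : ℕ, c / 2 * N ≤ c * N := fun N => by
    have : (0 : ℝ) ≤ N := Nat.cast_nonneg _
    nlinarith
  -- the exceptional scales for the mean of `g 2`
  obtain ⟨E', hE', hE2'⟩ : ∃ E' : Set ℕ, Pool.Agent.Y958.U.LZ E' ∧ (NoRealCharacter (g 2) →
      ∀ N ∉ E', |∑ n ∈ Icc 1 N, (g 2 (q * n + h 2) : ℝ)| ≤ c * N) := by
    by_cases h2 : NoRealCharacter (g 2)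
    · refine ⟨_, Pool.Agent.R512.P.oneQ (hms 2) h2 q (h 2) hq c hc0, fun _ N hN => ?_⟩
      have h3 : ¬ (c * N < |∑ n ∈ Icc 1 N, (g 2 (q * n + h 2) : ℝ)|) := hN
      exact not_lt.1 h3
    · exact ⟨∅, Pool.Agent.Y958.U.LZ_bdd ∅ 0 (fun n hn => absurd hn (Set.notMem_empty n)), fun h => absurd h h2⟩
  refine ⟨⟨E ∪ E', Pool.Agent.Y958.U.LZ_union hE hE', fun N hN hm s hs => ?_⟩, ?_⟩
  · rw [Set.mem_union, not_or] at hN
    refine (hmono N).trans (hE2 N hN.1 ?_ s hs)
    rcases hm with hm | hm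
    · exact hE2' hm N hN.2
    · exact hm.trans (hmono N)
  · intro hm s hs
    have hLZ : Pool.Agent.Y958.U.LZ {N : ℕ | ¬ (c * N ≤
        ((Icc 1 N).filter (fun n => ∀ i, g i (q * n + h i) = s i)).card)} := by
      rcases hm with hm | hm
      · refine Pool.Agent.Y958.U.LZ_sub ?_ (Pool.Agent.Y958.U.LZ_union hE hE')
        intro N hN
        by_contra hcon
        rw [Set.mem_union, not_or] at hcon
        exact hN (hE2 N hcon.1 (hE2' hm N hcon.2) s hs)
      · obtain ⟨N₀, hN₀⟩ := eventually_atTop.1 hm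
        refine Pool.Agent.Y958.U.LZ_sub ?_ (Pool.Agent.Y958.U.LZ_union hE
          (Pool.Agent.Y958.U.LZ_bdd {N | N < N₀} N₀ fun n hn => hn))
        intro N hN
        by_contra hcon
        rw [Set.mem_union, not_or] at hcon
        have h2 : ¬ (N < N₀) := hcon.2
        exact hN (hE2 N hcon.1 ((hN₀ N (not_lt.1 h2)).trans (hmono N)) s hs)
    obtain ⟨X₀, hX₀⟩ := Pool.Agent.R512.P.log_low (fun n => ∀ i, g i (q * n + h i) = s i) c hc0 hc1 hLZ
    exact eventually_atTop.2 ⟨X₀, hX₀⟩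

end Pool.Agent.Results.MP_0c9a68_nt.SignPatternsThreeFunctions
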