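import Pool.Agent.R459.Mir2

/-!
# Elliott's conjecture with a displaced factor near a twisted Liouville function, uniformly in this factor, for all
shifts near almost all palindromes and near random integers with mirror-dependent digits

Definitions used:
* in `Pool.Agent.R459.Tw`: `nit t n = n ^ (i t)`; `NearTwist δ B₁ Q f`: `f` is a multiplicative function bounded by `1`,
  and for some Dirichlet character `χ` of modulus `q ≤ Q` and some real `|t| ≤ Q` the sum of
  `|f p + χ p * p ^ (i t)| / p ^ (1 - δ)` over the primes `p` is at most `B₁`;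
* in `Pool.Agent.R459.Ell`: `ext f`: the extension by zero of `f` to the integers; `Weights T k a g`: the `a l ≥ 1` are
  integers, the `g l` functions bounded by `k ^ T`, and there are at most `k ^ T` of them; `Good`, `Elliott` and `Near`
  (see the theorem below);
* in `Pool.Agent.TH872.Tr`: `num b k E`: the number of the palindromes with exactly `k` digits in base `b` which have
  the property `E`; `value b k κ c d z`: the integer `c + κ v`, where `v` has the pair of digits `d i` at the positions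
  `i` and `k - 1 - i`, for `i < k / 2`, and, if `k` is odd, the middle digit `z`; `Prob b k w u E`: the probability of
  the event `E` if the pairs `d i` and `z` are chosen independently of each other with the distributions `w i` and `u`;
  `Pairs b k η w`: the `w i` are distributions of pairs of digits, and two independent copies of the pair number `i`
  (`i ≥ 1`) differ in both digits with a probability of at least `η`.
-/

set_option autoImplicit false

namespace Pool.Agent.Results.MP_0c9a68_nt.VariablePalindromes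

open Finset Pool.Agent.R459.Ell Pool.Agent.TH872.Tr

lemma num_mono {b k : ℕ} {E E' : ℕ → Prop} (h : ∀ v, E v → E' v) : num b k E ≤ num b k E' := by
  classical
  unfold num
  apply card_le_card
  intro m hm
  rw [mem_filter] at hm ⊢
  exact ⟨hm.1, hm.2.1, h m hm.2.2⟩

lemma prob_mono {b k : ℕ} {w : ℕ → ℕ × ℕ → ℝ} {u : ℕ → ℝ} (hw : ∀ i < k / 2, ∀ a, 0 ≤ w i a) (hu : ∀ a, 0 ≤ u a)
    {E E' : (Fin (k / 2) → ℕ × ℕ) → ℕ → Prop} (h : ∀ d z, E d z → E' d z) : Prob b k w u E ≤ Prob b k w u E' := by
  unfold Prob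
  refine sum_le_sum fun d _ => sum_le_sum fun z _ => ?_
  have h0 : 0 ≤ (∏ i : Fin (k / 2), w i (d i)) * u z :=
    mul_nonneg (prod_nonneg fun i _ => hw i i.2 _) (hu z)
  split_ifs with h1 h2 h2
  · exact le_rfl
  · exact absurd (h d z h1) h2
  · exact h0
  · exact le_rfl

/-- Let `b ≥ 2`, `B`, `T`, `W`, `U`, `κ ≠ 0`, `η > 0`, `δ > 0` and `B₁` be fixed, let `k` be large and `N = b ^ k`, and
let `c` be an arbitrary integer with `|c| ≤ B N`.

(1) Let `a l ≥ 1` and the weights `g l` be arbitrary (at most `k ^ T` of them, bounded by `k ^ T`). Let `v` be a random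
integer with `k` digits in base `b`, such that the pairs formed by the digits at the positions `i` and `k - 1 - i` are
independent of each other for different `i`. Inside of a pair the digits may depend on each other in an arbitrary way;
the distributions of the pairs are arbitrary, only two independent copies of a pair (with `i ≥ 1`) should differ in
both digits with a probability of at least `η`. Then, with a probability of at least `1 - 1 / k ^ U`, all the shifts
`h` at a distance of at most `k ^ W` from `c + κ v` are good: for ALL the `1`-bounded multiplicative functions `f` such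
that `∑ |f p + χ p * p ^ (i t)| / p ^ (1 - δ) ≤ B₁` (the sum over the primes) for some Dirichlet character `χ` of
modulus at most `k ^ T` and some `|t| ≤ k ^ T`, all `l` and all `X ≤ B N / a l`,
`|∑ n ≤ X, g l n * f (a l * n + h)| ≤ N / k ^ U`.
In particular this holds for all the palindromes `v` with `k` digits in base `b`, up to a proportion of at most
`1 / k ^ U` of them.

(2) Let `F 1, ..., F r` be arbitrary functions bounded by `1` (for example multiplicative ones) and `s 1, ..., s r`
arbitrary integers. With a probability of at least `1 - 1 / k ^ U`, and for all the palindromes `v` up to a proportion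
of at most `1 / k ^ U`, for all the shifts `h` at a distance of at most `k ^ W` from `c + κ v`, all the functions `f`
as in (1) and all `X ≤ B N`, `|∑ n ≤ X, F 1 (n + s 1) ⋯ F r (n + s r) * f (n + h)| ≤ N / k ^ U`. -/
theorem result (b B T W U : ℕ) (hb : 2 ≤ b) (κ : ℤ) (hκ : κ ≠ 0) (η δ B₁ : ℝ) (hη : 0 < η) (hδ : 0 < δ) :
    ∃ k₀ : ℕ, ∀ k : ℕ, k₀ ≤ k → ∀ N : ℕ, N = b ^ k → ∀ c : ℤ, |c| ≤ B * (N : ℤ) →
      (∀ (L : ℕ) (a : Fin L → ℕ) (g : Fin L → ℕ → ℂ), Weights T k a g →
        (∀ (w : ℕ → ℕ × ℕ → ℝ) (u : ℕ → ℝ), Pairs b k η w → (∀ a, 0 ≤ u a) → ∑ a ∈ range b, u a = 1 →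
          Prob b k w u (fun d z => ¬ Near W k (Good δ B₁ B T U N k a g) (value b k κ c d z)) ≤ 1 / (k : ℝ) ^ U) ∧
        (num b k (fun v => ¬ Near W k (Good δ B₁ B T U N k a g) (c + κ * v)) : ℝ) ≤
          num b k (fun _ => True) / (k : ℝ) ^ U) ∧
      (∀ (r : ℕ) (F : Fin r → ℤ → ℂ) (s : Fin r → ℤ), (∀ j m, ‖F j m‖ ≤ 1) →
        (∀ (w : ℕ → ℕ × ℕ → ℝ) (u : ℕ → ℝ), Pairs b k η w → (∀ a, 0 ≤ u a) → ∑ a ∈ range b, u a = 1 →
          Prob b k w u (fun d z => ¬ Near W k (Elliott δ B₁ B T U N k F s) (value b k κ c d z)) ≤ 1 / (k : ℝ) ^ U) ∧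
        (num b k (fun v => ¬ Near W k (Elliott δ B₁ B T U N k F s) (c + κ * v)) : ℝ) ≤
          num b k (fun _ => True) / (k : ℝ) ^ U) := by
  classical
  obtain ⟨B', hB'⟩ : ∃ B' : ℕ, B' = B + b ^ (B + 3 * κ.natAbs) := ⟨_, rfl⟩
  obtain ⟨T', U', E, k1, hUU, hpass⟩ := pass δ B₁ hδ B B' T W U (by omega)
  obtain ⟨k2, htr⟩ := transfer b B U' hb κ _ (Pool.Agent.R459.mir_corrS b B B' T' W U' hb Pool.Agent.H373R2.T7.liR
    Pool.Agent.W93.LM.nice_liR κ hκ) η hη
  obtain ⟨k3, hpow⟩ := pow_le_exp b E 1 hb le_rfl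
  have hgen : ∀ k : ℕ, k1 + k2 + k3 + b + 1 ≤ k → ∀ N : ℕ, N = b ^ k → ∀ c : ℤ, |c| ≤ B * (N : ℤ) →
      ∀ (L : ℕ) (a : Fin L → ℕ) (g : Fin L → ℕ → ℂ), Weights T k a g →
        (∀ (w : ℕ → ℕ × ℕ → ℝ) (u : ℕ → ℝ), Pairs b k η w → (∀ a, 0 ≤ u a) → ∑ a ∈ range b, u a = 1 →
          Prob b k w u (fun d z => ¬ Near W k (Good δ B₁ B T U N k a g) (value b k κ c d z)) ≤ 1 / (k : ℝ) ^ U) ∧
        (num b k (fun v => ¬ Near W k (Good δ B₁ B T U N k a g) (c + κ * v)) : ℝ) ≤
          num b k (fun _ => True) / (k : ℝ) ^ U := by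
    intro k hk N hN c hc L a g hwt
    have hk1 : (1 : ℝ) ≤ k := by exact_mod_cast (by omega : 1 ≤ k)
    have hEN : k ^ E ≤ N := by
      have := hpow k (by omega)
      rwa [one_mul, ← hN] at this
    have hlog : Real.log N ≤ (k : ℝ) ^ 2 := by
      have := log_pow_le b 1 k (by omega) (by omega)
      rwa [one_mul, ← hN] at this
    obtain ⟨L', α', g', hw', hbig⟩ := hpass k (by omega) N hEN hlog L a g hwt
    have hc' : |c| ≤ (B : ℤ) * (b : ℤ) ^ k := by
      rw [hN] at hc
      push_cast at hc
      exact hc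
    have h1 := htr k (by omega) c hc' (fun y => ¬ Near W k (Good δ B₁ B T U N k a g) y) (by
      refine ⟨L', α', g', by rw [← hN]; exact hw', fun y hy hbad => ?_⟩
      rw [← hN]
      refine hbig y (hy.trans ?_) hbad
      rw [pow_add, mul_comm, hB', hN]
      push_cast
      apply mul_le_mul_of_nonneg_right _ (by positivity)
      linarith [Int.natCast_nonneg B])
    have hkU : 1 / (k : ℝ) ^ U' ≤ 1 / (k : ℝ) ^ U :=
      div_le_div_of_nonneg_left zero_le_one (by positivity) (pow_le_pow_right₀ hk1 hUU)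
    refine ⟨fun w u hw hu hu1 => (h1.1 w u hw hu hu1).trans hkU, h1.2.trans ?_⟩
    exact div_le_div_of_nonneg_left (Nat.cast_nonneg _) (by positivity) (pow_le_pow_right₀ hk1 hUU)
  refine ⟨k1 + k2 + k3 + b + 1, fun k hk N hN c hc => ⟨hgen k hk N hN c hc, fun r F s hF => ?_⟩⟩
  obtain ⟨h1, h2⟩ := hgen k hk N hN c hc 1 _ _ (elliott_wts T k (by omega) F hF s)
  refine ⟨fun w u hw hu hu1 => le_trans (prob_mono hw.nonneg hu fun d z hσ => ?_) (h1 w u hw hu hu1), le_trans ?_ h2⟩
  · exact of_elliott _ _ _ _ _ _ _ _ _ _ _ hσ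
  · exact_mod_cast num_mono fun v hv => of_elliott _ _ _ _ _ _ _ _ _ _ _ hv

end Pool.Agent.Results.MP_0c9a68_nt.VariablePalindromes
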